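import Pool.Agent.H56.E.Base
import Pool.Agent.H6.N4D.All
import Pool.Agent.H78.GX.All3a
import Pool.Agent.H56.E.H8.G3.SG
import Pool.Agent.H38.EL.BAB
import Pool.Agent.H52.G3.RB
import Pool.Agent.H14.G3.RM
import Pool.Agent.H14.G3.RS
import Pool.Agent.H1.G3.RN
import Pool.Agent.H30.G3.RL
import Pool.Agent.H91.G3.RU
import Pool.Agent.H56.G3.RO
import Pool.Agent.H56.G3.RG
import Pool.Agent.H36.G3.RA
import Pool.Agent.H17.G3.RC
import Pool.Agent.H23.G3.RE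
import Pool.Agent.H23.G3.RP
import Pool.Agent.H89.G3.RX
import Pool.Agent.H30.G3.REG
import Pool.Agent.H56.E.H46.G3.WQ
import Pool.Agent.H56.E.H86.G3.SF
import Pool.Agent.H56.E.H61.G3.SC
import Pool.Agent.H56.E.H14.G3.SN
import Pool.Agent.H56.E.H14.G3.SV
import Pool.Agent.H56.E.H18.G3.SZ
import Pool.Agent.H56.E.H4.G3.SW
import Pool.Agent.H56.E.H89.G3.SA1
import Pool.Agent.H56.E.H76.G3.SA2
import Pool.Agent.H56.E.H7.GS3.SH
import Pool.Agent.H56.E.H69.G3.SB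
import Pool.Agent.H56.E.H86.G3.IC
import Pool.Agent.H56.E.H89.G3.II
import Pool.Agent.H56.E.H69.G3.IF
import Pool.Agent.H56.E.H31.G3.INV
import Pool.Agent.H56.E.H63.G3.EW
import Pool.Agent.H56.E.H80.G3.EJ
import Pool.Agent.H56.E.H61.G3.EQ
import Pool.Agent.H56.E.H51.GS3.EZ
import Pool.Agent.H56.E.H14.G3.ER
import Pool.Agent.H56.E.H30.G3.EB
import Pool.Agent.H56.E.H46.G3.ED
import Pool.Agent.H56.E.H30.G3.BA
import Pool.Agent.H56.E.H55.G3.BP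
import Pool.Agent.H56.E.H56.G3.BL
import Pool.Agent.H56.E.H1.G3.BS
import Pool.Agent.H56.E.H92.G3.BE
import Pool.Agent.H56.E.H36.G3.BN
import Pool.Agent.H56.E.H5.GS3.E3

/-!
# Theorem (H), section 3b with decoupled prime numbers: composition
-/

set_option autoImplicit false

namespace Pool.Agent.H56.E.H56.G3.All

open Pool.Agent.H78.GX.H6.N4D Pool.Agent.H56.G3 Pool.Agent.H56.E.H56.G3

theorem aSIZ : T_SIZ := Pool.Agent.H78.GX.All.tSIZ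
theorem aTWO : T_TWO := Pool.Agent.H78.GX.All.tTWO
theorem aWLG : T_WLG := Pool.Agent.H78.GX.All.tWLG
theorem aBAB : Pool.Agent.H72.EN.T_BAB := Pool.Agent.H38.EL.pf_BAB
theorem aRB : T_RB := Pool.Agent.H52.G3.pf_RB
theorem aRM : T_RM := Pool.Agent.H14.G3.pf_RM aRB
theorem aRS : T_RS := Pool.Agent.H14.G3.pf_RS aRB
theorem aRN : T_RN := Pool.Agent.H1.G3.pf_RN aRB aRS
theorem aRL : T_RL := Pool.Agent.H30.G3.pf_RL aRB
theorem aRU : T_RU := Pool.Agent.H91.G3.pf_RU aRB aRS aRN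
theorem aRO : T_RO := pf_RO aRB aRM aRU
theorem aRG : T_RG := pf_RG
theorem aRA : T_RA := Pool.Agent.H36.G3.pf_RA aRB
theorem aRC : T_RC := Pool.Agent.H17.G3.pf_RC aRG
theorem aRE : T_RE := Pool.Agent.H23.G3.pf_RE
theorem aRP : T_RP := Pool.Agent.H23.G3.pf_RP aRB aRU
theorem aRX : T_RX := Pool.Agent.H89.G3.pf_RX aRB aRE aRP
theorem aREG : T_REG := Pool.Agent.H30.G3.pf_REG aRA aRC aRX
theorem aWQ : T_WQ := Pool.Agent.H56.E.H46.G3.pf_WQ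
theorem aSF : T_SF := Pool.Agent.H56.E.H86.G3.pf_SF
theorem aSC : T_SC := Pool.Agent.H56.E.H61.G3.SC.pf_SC
theorem aSN : T_SN := Pool.Agent.H56.E.H14.G3.pf_SN aSIZ
theorem aSV : T_SV := Pool.Agent.H56.E.H14.G3.pf_SV aSF aSC aSN aSIZ
theorem aSZ : T_SZ := Pool.Agent.H56.E.H18.G3.pf_SZ aRB aBAB
theorem aSW : T_SW := Pool.Agent.H56.E.H4.G3.pf_SW
theorem aSA1 : T_SA1 := Pool.Agent.H56.E.H89.G3.pf_SA1 aRB aRN aRL aSF aSC aSN
theorem aSA2 : T_SA2 := Pool.Agent.H56.E.H76.G3.pf_SA2 aRB aRN aSF aSV aSN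
theorem aSH : T_SH := Pool.Agent.H56.E.H7.GS3.pf_SH aRO aSN
theorem aSB : T_SB := Pool.Agent.H56.E.H69.G3.pf_SB aREG aSN
theorem aIC : T_IC := Pool.Agent.H56.E.H86.G3.pf_IC aRG
theorem aII : T_II := Pool.Agent.H56.E.H89.G3.pf_II aRG
theorem aIF : T_IF := Pool.Agent.H56.E.H69.G3.pf_IF
theorem aINV : T_INV := Pool.Agent.H56.E.H31.G3.pf_INV aRG aIC aII aIF
theorem aEW : T_EW := Pool.Agent.H56.E.H63.G3.pf_EW aSIZ aSN
theorem aEJ : T_EJ := Pool.Agent.H56.E.H80.G3.pf_EJ aRB aEW aSN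
theorem aEQ : T_EQ := Pool.Agent.H56.E.H61.G3.EQ.pf_EQ aRB
theorem aEZ : T_EZ := Pool.Agent.H56.E.H51.GS3.pf_EZ
theorem aER : T_ER := Pool.Agent.H56.E.H14.G3.pf_ER aRG
theorem aEB : T_EB := Pool.Agent.H56.E.H30.G3.pf_EB aTWO
theorem aED : T_ED := Pool.Agent.H56.E.H46.G3.pf_ED aRB aEW aEJ aEQ aEZ aER aEB aSN aSZ aWQ aBAB
theorem aBA : T_BA := Pool.Agent.H56.E.H30.G3.pf_BA
theorem aBP : T_BP := Pool.Agent.H56.E.H55.G3.pf_BP
theorem aBL : T_BL := pf_BL aRB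
theorem aBS : T_BS := Pool.Agent.H56.E.H1.G3.pf_BS aSH aINV aBA aSN aRB
theorem aBE : T_BE := Pool.Agent.H56.E.H92.G3.pf_BE aRB aRM aINV aBA aEW aSN
theorem aBN : T_BN := Pool.Agent.H56.E.H36.G3.pf_BN aRB aSB aED aBA aBP aBL aBS aBE aSN aWLG

theorem aSG : T_SG := Pool.Agent.H56.E.H8.G3.pf_SG aRB aWQ aSV aSZ aSW aSA1 aSA2 aSN

/-- the energy at a level is small if a range of bounded ratio above it is good -/
theorem e3r : T_E3r :=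
  Pool.Agent.H56.E.H5.GS3.pf_E3 Pool.Agent.H6.N4D.All.gap Pool.Agent.H78.GX.All.aBUN aSG aBN

end Pool.Agent.H56.E.H56.G3.All
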