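import Pool.Agent.H6.N4D.Defs
import Pool.Agent.H78.GX.Defs

/-!
# Clone of section 3b of theorem (G) with the prime numbers decoupled from the range: names
-/

set_option autoImplicit false

namespace Pool.Agent.H1.G3
end Pool.Agent.H1.G3

namespace Pool.Agent.H1.N4D
end Pool.Agent.H1.N4D

namespace Pool.Agent.H10.G3
end Pool.Agent.H10.G3

namespace Pool.Agent.H13.GSA
end Pool.Agent.H13.GSA

namespace Pool.Agent.H14.G3
end Pool.Agent.H14.G3

namespace Pool.Agent.H17.GSA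
end Pool.Agent.H17.GSA

namespace Pool.Agent.H17.N4D
end Pool.Agent.H17.N4D

namespace Pool.Agent.H18.G3
end Pool.Agent.H18.G3

namespace Pool.Agent.H21.GS3
end Pool.Agent.H21.GS3

namespace Pool.Agent.H30.G3
end Pool.Agent.H30.G3

namespace Pool.Agent.H30.GS3
end Pool.Agent.H30.GS3

namespace Pool.Agent.H31.G3
end Pool.Agent.H31.G3

namespace Pool.Agent.H35.G3
end Pool.Agent.H35.G3

namespace Pool.Agent.H36.G3
end Pool.Agent.H36.G3

namespace Pool.Agent.H36.GS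
end Pool.Agent.H36.GS

namespace Pool.Agent.H38.GS3
end Pool.Agent.H38.GS3

namespace Pool.Agent.H38.N4D
end Pool.Agent.H38.N4D

namespace Pool.Agent.H4.G3
end Pool.Agent.H4.G3

namespace Pool.Agent.H40.GS
end Pool.Agent.H40.GS

namespace Pool.Agent.H43.GS3
end Pool.Agent.H43.GS3

namespace Pool.Agent.H46.G3
end Pool.Agent.H46.G3

namespace Pool.Agent.H5.GS3
end Pool.Agent.H5.GS3

namespace Pool.Agent.H50.GS3
end Pool.Agent.H50.GS3

namespace Pool.Agent.H51.GS3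
end Pool.Agent.H51.GS3

namespace Pool.Agent.H51.N4D
end Pool.Agent.H51.N4D

namespace Pool.Agent.H52.G3
end Pool.Agent.H52.G3

namespace Pool.Agent.H55.G3
end Pool.Agent.H55.G3

namespace Pool.Agent.H56.E.H1.G3
end Pool.Agent.H56.E.H1.G3

namespace Pool.Agent.H56.E.H14.G3
end Pool.Agent.H56.E.H14.G3

namespace Pool.Agent.H56.E.H18.G3
end Pool.Agent.H56.E.H18.G3

namespace Pool.Agent.H56.E.H30.G3
end Pool.Agent.H56.E.H30.G3

namespace Pool.Agent.H56.E.H31.G3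
end Pool.Agent.H56.E.H31.G3

namespace Pool.Agent.H56.E.H36.G3
end Pool.Agent.H56.E.H36.G3

namespace Pool.Agent.H56.E.H4.G3
end Pool.Agent.H56.E.H4.G3

namespace Pool.Agent.H56.E.H46.G3
end Pool.Agent.H56.E.H46.G3

namespace Pool.Agent.H56.E.H5.GS3
end Pool.Agent.H56.E.H5.GS3

namespace Pool.Agent.H56.E.H51.GS3
end Pool.Agent.H56.E.H51.GS3

namespace Pool.Agent.H56.E.H55.G3
end Pool.Agent.H56.E.H55.G3

namespace Pool.Agent.H56.E.H56.G3
end Pool.Agent.H56.E.H56.G3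

namespace Pool.Agent.H56.E.H56.G3.All
end Pool.Agent.H56.E.H56.G3.All

namespace Pool.Agent.H56.E.H61.G3.EQ
end Pool.Agent.H56.E.H61.G3.EQ

namespace Pool.Agent.H56.E.H61.G3.SC
end Pool.Agent.H56.E.H61.G3.SC

namespace Pool.Agent.H56.E.H63.G3
end Pool.Agent.H56.E.H63.G3

namespace Pool.Agent.H56.E.H69.G3
end Pool.Agent.H56.E.H69.G3

namespace Pool.Agent.H56.E.H7.GS3
end Pool.Agent.H56.E.H7.GS3

namespace Pool.Agent.H56.E.H76.G3
end Pool.Agent.H56.E.H76.G3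

namespace Pool.Agent.H56.E.H8.G3
end Pool.Agent.H56.E.H8.G3

namespace Pool.Agent.H56.E.H80.G3
end Pool.Agent.H56.E.H80.G3

namespace Pool.Agent.H56.E.H86.G3
end Pool.Agent.H56.E.H86.G3

namespace Pool.Agent.H56.E.H89.G3
end Pool.Agent.H56.E.H89.G3

namespace Pool.Agent.H56.E.H92.G3
end Pool.Agent.H56.E.H92.G3

namespace Pool.Agent.H56.G3
end Pool.Agent.H56.G3

namespace Pool.Agent.H56.G3.All
end Pool.Agent.H56.G3.All

namespace Pool.Agent.H59.N4D
end Pool.Agent.H59.N4D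

namespace Pool.Agent.H6.N4D
end Pool.Agent.H6.N4D

namespace Pool.Agent.H61.G3.EQ
end Pool.Agent.H61.G3.EQ

namespace Pool.Agent.H61.G3.SC
end Pool.Agent.H61.G3.SC

namespace Pool.Agent.H63.G3
end Pool.Agent.H63.G3

namespace Pool.Agent.H67.G3
end Pool.Agent.H67.G3

namespace Pool.Agent.H67.N4D
end Pool.Agent.H67.N4D

namespace Pool.Agent.H69.G3
end Pool.Agent.H69.G3

namespace Pool.Agent.H7.GS3
end Pool.Agent.H7.GS3

namespace Pool.Agent.H72.N4D
end Pool.Agent.H72.N4D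

namespace Pool.Agent.H73.G3
end Pool.Agent.H73.G3

namespace Pool.Agent.H76.G3
end Pool.Agent.H76.G3

namespace Pool.Agent.H78.GS
end Pool.Agent.H78.GS

namespace Pool.Agent.H78.GX.H1.N4D
end Pool.Agent.H78.GX.H1.N4D

namespace Pool.Agent.H78.GX.H10.G3
end Pool.Agent.H78.GX.H10.G3

namespace Pool.Agent.H78.GX.H13.GSA
end Pool.Agent.H78.GX.H13.GSA

namespace Pool.Agent.H78.GX.H17.GSA
end Pool.Agent.H78.GX.H17.GSA

namespace Pool.Agent.H78.GX.H17.N4D
end Pool.Agent.H78.GX.H17.N4D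

namespace Pool.Agent.H78.GX.H21.GS3
end Pool.Agent.H78.GX.H21.GS3

namespace Pool.Agent.H78.GX.H30.GS3
end Pool.Agent.H78.GX.H30.GS3

namespace Pool.Agent.H78.GX.H35.G3
end Pool.Agent.H78.GX.H35.G3

namespace Pool.Agent.H78.GX.H36.GS
end Pool.Agent.H78.GX.H36.GS

namespace Pool.Agent.H78.GX.H38.GS3
end Pool.Agent.H78.GX.H38.GS3

namespace Pool.Agent.H78.GX.H38.N4D
end Pool.Agent.H78.GX.H38.N4D

namespace Pool.Agent.H78.GX.H40.GS
end Pool.Agent.H78.GX.H40.GS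

namespace Pool.Agent.H78.GX.H43.GS3
end Pool.Agent.H78.GX.H43.GS3

namespace Pool.Agent.H78.GX.H5.GS3
end Pool.Agent.H78.GX.H5.GS3

namespace Pool.Agent.H78.GX.H50.GS3
end Pool.Agent.H78.GX.H50.GS3

namespace Pool.Agent.H78.GX.H51.GS3
end Pool.Agent.H78.GX.H51.GS3

namespace Pool.Agent.H78.GX.H51.N4D
end Pool.Agent.H78.GX.H51.N4D

namespace Pool.Agent.H78.GX.H52.G3
end Pool.Agent.H78.GX.H52.G3

namespace Pool.Agent.H78.GX.H55.G3
end Pool.Agent.H78.GX.H55.G3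

namespace Pool.Agent.H78.GX.H59.N4D
end Pool.Agent.H78.GX.H59.N4D

namespace Pool.Agent.H78.GX.H6.N4D
end Pool.Agent.H78.GX.H6.N4D

namespace Pool.Agent.H78.GX.H63.G3
end Pool.Agent.H78.GX.H63.G3

namespace Pool.Agent.H78.GX.H67.G3
end Pool.Agent.H78.GX.H67.G3

namespace Pool.Agent.H78.GX.H67.N4D
end Pool.Agent.H78.GX.H67.N4D

namespace Pool.Agent.H78.GX.H7.GS3
end Pool.Agent.H78.GX.H7.GS3

namespace Pool.Agent.H78.GX.H72.N4D
end Pool.Agent.H78.GX.H72.N4D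

namespace Pool.Agent.H78.GX.H73.G3
end Pool.Agent.H78.GX.H73.G3

namespace Pool.Agent.H78.GX.H78.GS
end Pool.Agent.H78.GX.H78.GS

namespace Pool.Agent.H78.GX.H80.GS3
end Pool.Agent.H78.GX.H80.GS3

namespace Pool.Agent.H78.GX.H81.N4D
end Pool.Agent.H78.GX.H81.N4D

namespace Pool.Agent.H78.GX.H83.GS
end Pool.Agent.H78.GX.H83.GS

namespace Pool.Agent.H78.GX.H85.GS3
end Pool.Agent.H78.GX.H85.GS3

namespace Pool.Agent.H78.GX.H91.N4D
end Pool.Agent.H78.GX.H91.N4D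

namespace Pool.Agent.H78.GX.H95.N4D
end Pool.Agent.H78.GX.H95.N4D

namespace Pool.Agent.H78.GX.H96.N4D
end Pool.Agent.H78.GX.H96.N4D

namespace Pool.Agent.H78.GX.H97.N4D
end Pool.Agent.H78.GX.H97.N4D

namespace Pool.Agent.H8.G3
end Pool.Agent.H8.G3

namespace Pool.Agent.H80.G3
end Pool.Agent.H80.G3

namespace Pool.Agent.H80.GS3
end Pool.Agent.H80.GS3

namespace Pool.Agent.H81.N4D
end Pool.Agent.H81.N4D

namespace Pool.Agent.H83.GS
end Pool.Agent.H83.GS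

namespace Pool.Agent.H85.GS3
end Pool.Agent.H85.GS3

namespace Pool.Agent.H86.G3
end Pool.Agent.H86.G3

namespace Pool.Agent.H89.G3
end Pool.Agent.H89.G3

namespace Pool.Agent.H91.N4D
end Pool.Agent.H91.N4D

namespace Pool.Agent.H92.G3
end Pool.Agent.H92.G3

namespace Pool.Agent.H95.N4D
end Pool.Agent.H95.N4D

namespace Pool.Agent.H96.N4D
end Pool.Agent.H96.N4D

namespace Pool.Agent.H97.N4D
end Pool.Agent.H97.N4D

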